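import Pool.Agent.W528.Apery.Series

/-!
# The formula for Apery limits by the Gamma class fails for a toric Fano fourfold

Let `F = P(O + O(3))` over `P³`, a smooth toric Fano fourfold.  Its fan (`F₃`) has the rays
`e₁, e₂, e₃, -e₁ - e₂ - e₃ + 3 e₄, e₄, -e₄`; a maximal cone is spanned by three of the first four
rays and one of the last two.  The Fano index is `1`.

Let `α` be the class in `H₂(F)` with intersection numbers `2, 2, 2, 2, -7, -1` with the six torus
invariant divisors.  Then `c₁ · α = 0`, that is, `α ∩ c₁(F) = 0`.  The coefficients of the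
J-function are given by the theorem of Givental (`ToricFano.J`; for Fano manifolds there is no
mirror map).  We show that the quotients `⟨α, J_n⟩ / ⟨[pt], J_n⟩` are not bounded; so they do not
converge, in particular not to `⟨α, Γ̂_F⟩`.

Idea of the proof.  The classes `n` times a line in the section with normal bundle `O(-3)`, and
their neighbours, contribute to the part of `J_n` in degree two an alternating sum whose size is
about `27 ^ n / n!`, while the part in degree zero is at most of the size `6 ^ n / n!`.  To deal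
with the cancellations form the generating function in `- s`, `s > 0`.  Up to terms of exponential
type at most `9`, it becomes `∑ₐ sᵃ / a! ^ 4 ∫ y ^ (3a-1) exp (- y - s² / y) dy`, the sum of a
series with positive terms (Bessel functions), which has exponential type at least `17`.
-/

set_option autoImplicit false

namespace Pool.Agent.Results.MP_12343a_ag.ToricFourfold

open Pool.Agent.W528.Apery Filter Topology

/-- For the smooth toric Fano fourfold `F₃ = P(O + O(3))` over `P³`, of Fano index `1`, there is a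
class `α` in the homology (a linear functional on the cohomology) with `α ∩ c₁ = 0`, such that
`⟨[pt], J n⟩ ≠ 0` for all large `n` and the quotients `⟨α, J n⟩ / ⟨[pt], J n⟩` are unbounded, and
so do not converge to `⟨α, Γ̂⟩`. -/
theorem result : F₃.IsIndex 1 ∧ (∀ᶠ n in atTop, F₃.pt (F₃.J n) ≠ 0) ∧
    ∃ α : F₃.Coh →ₗ[ℂ] ℂ, (∀ x, α (F₃.c₁ * x) = 0) ∧
      (∀ C : ℝ, ∃ᶠ n in atTop, C < ‖α (F₃.J n) / F₃.pt (F₃.J n)‖) ∧
      ¬ Tendsto (fun n => α (F₃.J n) / F₃.pt (F₃.J n)) atTop (𝓝 (α F₃.gammaClass)) := by
  have hpt : ∀ n, F₃.pt (F₃.J n) = ((F₃.G n : ℝ) : ℂ) := F₃.pt_J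
  have hα : ∀ n, F₃.α (F₃.J n) = ((F₃.A n : ℝ) : ℂ) := F₃.α_J
  have hunb : ∀ C : ℝ, ∃ᶠ n in atTop, C < ‖F₃.α (F₃.J n) / F₃.pt (F₃.J n)‖ := by
    intro C hC
    apply F₃.not_bounded C
    filter_upwards [hC, eventually_ge_atTop 7] with n hn hn7
    have hG := F₃.G_pos n hn7
    rw [hpt, hα, not_lt, norm_div, Complex.norm_real, Complex.norm_real, Real.norm_eq_abs,
      Real.norm_eq_abs, abs_of_pos hG, div_le_iff₀ hG] at hn
    exact hn
  refine ⟨F₃.isIndex, ?_, F₃.α, ?_, hunb, ?_⟩
  · filter_upwards [eventually_ge_atTop 7] with n hn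
    rw [hpt]
    exact_mod_cast (F₃.G_pos n hn).ne'
  · exact F₃.curveFunctional_c₁_mul F₃.wt F₃.wt_rel F₃.wt_sum
  · intro h
    have h2 := h.norm.eventually (gt_mem_nhds (lt_add_one _))
    exact hunb (‖F₃.α F₃.gammaClass‖ + 1) (h2.mono fun n hn => not_lt.2 hn.le)

end Pool.Agent.Results.MP_12343a_ag.ToricFourfold
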